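import Pool.Agent.Work.MP_35c45d_lc.BezoutMain

/-!
# MP_35c45d_lc : Bezout for nondegenerate zeros, entries of degree `d`  (helper18)

Multidegrees `(d,1,0)`, `(d,0,1)`, `(d,1,1)` in place of `(1,1,0)`, `(1,0,1)`, `(0,1,1)`.
-/

set_option autoImplicit false

namespace Pool.Agent.Work.MP_35c45d_lc.DG

open Filter Topology Pool.DualDC

/-- the numeric limit, with a general degree `Q` in the first group -/
theorem bez_limit (K n N Q d0 : ℕ) (hn : 1 ≤ n) (hN : 1 ≤ N)
    (h : ∀ D : ℕ, K * ((n + 2 * n * D).choose n * ((n - 1 + 2 * n * D).choose (n - 1) *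
        (N - 1 + N * D).choose (N - 1))) ≤
      (N + (Q * D + d0)).choose N * ((n - 1 + ((2 * n + N) * D + d0)).choose (n - 1) *
        (n - 1 + ((2 * n + N) * D + d0)).choose (n - 1))) :
    (K : ℝ) ≤ (Real.exp 1 * Q / N) ^ N := by
  obtain ⟨n, rfl⟩ : ∃ k, n = k + 1 := ⟨n - 1, by omega⟩
  obtain ⟨N, rfl⟩ : ∃ k, N = k + 1 := ⟨N - 1, by omega⟩
  simp only [Nat.add_sub_cancel] at h
  set nn : ℝ := ((n + 1 : ℕ) : ℝ) with hnn
  set NN : ℝ := ((N + 1 : ℕ) : ℝ) with hNN
  have hn0 : 0 < nn := by positivity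
  have hN0 : 0 < NN := by positivity
  -- the inequality for every `D ≥ 1`
  have key : ∀ D : ℕ, 1 ≤ D → (K : ℝ) * ((2 * nn) ^ (n + 1) / ((n + 1).factorial : ℝ) *
      ((2 * nn) ^ n / (n.factorial : ℝ) * (NN ^ N / (N.factorial : ℝ)))) ≤
      ((Q : ℝ) + (NN + d0) * (1 / (D : ℝ))) ^ (N + 1) / ((N + 1).factorial : ℝ) *
        (((2 * nn + NN + (n + d0) * (1 / (D : ℝ))) ^ n / (n.factorial : ℝ)) *
        ((2 * nn + NN + (n + d0) * (1 / (D : ℝ))) ^ n / (n.factorial : ℝ))) := by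
    intro D hD
    have hD0 : (0 : ℝ) < D := by exact_mod_cast hD
    have h1 := h D
    have h2 : (K : ℝ) * (((n + 1 + 2 * (n + 1) * D).choose (n + 1) : ℝ) *
        (((n + 2 * (n + 1) * D).choose n : ℝ) * ((N + (N + 1) * D).choose N : ℝ))) ≤
        ((N + 1 + (Q * D + d0)).choose (N + 1) : ℝ) *
          (((n + ((2 * (n + 1) + (N + 1)) * D + d0)).choose n : ℝ) *
          ((n + ((2 * (n + 1) + (N + 1)) * D + d0)).choose n : ℝ)) := by exact_mod_cast h1
    have a1 := SQL.lower (n + 1) (2 * (n + 1) * D)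
    have a2 := SQL.lower n (2 * (n + 1) * D)
    have a3 := SQL.lower N ((N + 1) * D)
    have b1 := SQL.upper (N + 1) (Q * D + d0)
    have b2 := SQL.upper n ((2 * (n + 1) + (N + 1)) * D + d0)
    have c1 : (((2 * (n + 1) * D : ℕ) : ℝ)) = 2 * nn * D := by rw [hnn]; push_cast; ring
    have c3 : ((((N + 1) * D : ℕ) : ℝ)) = NN * D := by rw [hNN]; push_cast; ring
    have c4 : (((N + 1 : ℕ) : ℝ)) + ((Q * D + d0 : ℕ) : ℝ) =
        ((Q : ℝ) + (NN + d0) * (1 / (D : ℝ))) * D := by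
      rw [hNN]
      push_cast
      field_simp
      ring
    have c5 : ((n : ℕ) : ℝ) + (((2 * (n + 1) + (N + 1)) * D + d0 : ℕ) : ℝ) =
        (2 * nn + NN + (n + d0) * (1 / (D : ℝ))) * D := by
      rw [hnn, hNN]
      push_cast
      field_simp
      ring
    rw [c1] at a1 a2
    rw [c3] at a3
    rw [c4] at b1
    rw [c5] at b2
    have h3 : (K : ℝ) * ((2 * nn * D) ^ (n + 1) / ((n + 1).factorial : ℝ) *
        ((2 * nn * D) ^ n / (n.factorial : ℝ) * ((NN * D) ^ N / (N.factorial : ℝ)))) ≤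
        (((Q : ℝ) + (NN + d0) * (1 / (D : ℝ))) * D) ^ (N + 1) / ((N + 1).factorial : ℝ) *
        ((((2 * nn + NN + (n + d0) * (1 / (D : ℝ))) * D) ^ n / (n.factorial : ℝ)) *
        (((2 * nn + NN + (n + d0) * (1 / (D : ℝ))) * D) ^ n / (n.factorial : ℝ))) := by
      refine le_trans ?_ (h2.trans ?_)
      · refine mul_le_mul_of_nonneg_left ?_ (Nat.cast_nonneg K)
        refine mul_le_mul a1 (mul_le_mul a2 a3 (by positivity) (by positivity)) (by positivity)
          (by positivity)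
      · exact mul_le_mul b1 (mul_le_mul b2 b2 (by positivity) (by positivity)) (by positivity)
          (by positivity)
    have hDp : (0 : ℝ) < (D : ℝ) ^ (2 * n + N + 1) := by positivity
    refine le_of_mul_le_mul_right ?_ hDp
    calc _ = (K : ℝ) * ((2 * nn * D) ^ (n + 1) / ((n + 1).factorial : ℝ) *
        ((2 * nn * D) ^ n / (n.factorial : ℝ) * ((NN * D) ^ N / (N.factorial : ℝ)))) := by
          simp only [mul_pow]
          ring
      _ ≤ _ := h3
      _ = _ := by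
          simp only [mul_pow]
          ring
  -- the limit
  have hlim : Tendsto (fun D : ℕ => ((Q : ℝ) + (NN + d0) * (1 / (D : ℝ))) ^ (N + 1) /
      ((N + 1).factorial : ℝ) *
        (((2 * nn + NN + (n + d0) * (1 / (D : ℝ))) ^ n / (n.factorial : ℝ)) *
        ((2 * nn + NN + (n + d0) * (1 / (D : ℝ))) ^ n / (n.factorial : ℝ)))) atTop
      (𝓝 (((Q : ℝ) + (NN + d0) * 0) ^ (N + 1) / ((N + 1).factorial : ℝ) *
        (((2 * nn + NN + (n + d0) * 0) ^ n / (n.factorial : ℝ)) *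
        ((2 * nn + NN + (n + d0) * 0) ^ n / (n.factorial : ℝ))))) := by
    have h0 : Tendsto (fun D : ℕ => 1 / (D : ℝ)) atTop (𝓝 0) := tendsto_one_div_atTop_nhds_zero_nat
    have hc : Continuous fun x : ℝ => ((Q : ℝ) + (NN + d0) * x) ^ (N + 1) /
      ((N + 1).factorial : ℝ) *
        (((2 * nn + NN + (n + d0) * x) ^ n / (n.factorial : ℝ)) *
        ((2 * nn + NN + (n + d0) * x) ^ n / (n.factorial : ℝ))) := by fun_prop
    exact (hc.tendsto 0).comp h0
  have hfin := ge_of_tendsto hlim (Filter.eventually_atTop.2 ⟨1, key⟩)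
  simp only [mul_zero, add_zero] at hfin
  -- simplification
  have hf1 : ((n + 1).factorial : ℝ) = nn * (n.factorial : ℝ) := by
    rw [Nat.factorial_succ, hnn]; push_cast; ring
  have hf2 : ((N + 1).factorial : ℝ) = NN * (N.factorial : ℝ) := by
    rw [Nat.factorial_succ, hNN]; push_cast; ring
  have hn! : (0 : ℝ) < (n.factorial : ℝ) := by positivity
  have hN! : (0 : ℝ) < (N.factorial : ℝ) := by positivity
  rw [hf1, hf2] at hfin
  have h4 : (K : ℝ) * (2 * (2 * nn) ^ (2 * n) * NN ^ (N + 1)) ≤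
      ((Q : ℝ)) ^ (N + 1) * (2 * nn + NN) ^ (2 * n) := by
    have h5 : 0 < NN * (N.factorial : ℝ) * (n.factorial : ℝ) * (n.factorial : ℝ) := by positivity
    have h6 := mul_le_mul_of_nonneg_right hfin h5.le
    have e1 : (K : ℝ) * ((2 * nn) ^ (n + 1) / (nn * (n.factorial : ℝ)) *
      ((2 * nn) ^ n / (n.factorial : ℝ) * (NN ^ N / (N.factorial : ℝ)))) *
      (NN * (N.factorial : ℝ) * (n.factorial : ℝ) * (n.factorial : ℝ)) =
      (K : ℝ) * (2 * (2 * nn) ^ (2 * n) * NN ^ (N + 1)) := by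
      field_simp
      ring
    have e2 : ((Q : ℝ)) ^ (N + 1) / (NN * (N.factorial : ℝ)) *
        ((2 * nn + NN) ^ n / (n.factorial : ℝ) * ((2 * nn + NN) ^ n / (n.factorial : ℝ))) *
        (NN * (N.factorial : ℝ) * (n.factorial : ℝ) * (n.factorial : ℝ)) =
        ((Q : ℝ)) ^ (N + 1) * (2 * nn + NN) ^ (2 * n) := by
      field_simp
      ring
    rwa [e1, e2] at h6
  have h7 : (2 * nn + NN) ^ (2 * n) ≤ (2 * nn) ^ (2 * n) * Real.exp 1 ^ (N + 1) := by
    have h8 : 1 + NN / (2 * nn) ≤ Real.exp (NN / (2 * nn)) := by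
      rw [add_comm]; exact Real.add_one_le_exp _
    have h9 : (1 + NN / (2 * nn)) ^ (2 * n) ≤ Real.exp 1 ^ (N + 1) := by
      calc (1 + NN / (2 * nn)) ^ (2 * n) ≤ Real.exp (NN / (2 * nn)) ^ (2 * n) :=
            pow_le_pow_left₀ (by positivity) h8 _
        _ = Real.exp (((2 * n : ℕ) : ℝ) * (NN / (2 * nn))) := by rw [← Real.exp_nat_mul]
        _ ≤ Real.exp (((N + 1 : ℕ) : ℝ) * 1) := by
            refine Real.exp_le_exp.2 ?_
            rw [← hNN, mul_one, ← mul_div_assoc, div_le_iff₀ (by positivity)]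
            have h10 : ((2 * n : ℕ) : ℝ) ≤ 2 * nn := by rw [hnn]; push_cast; linarith
            calc ((2 * n : ℕ) : ℝ) * NN ≤ 2 * nn * NN := mul_le_mul_of_nonneg_right h10 hN0.le
              _ = NN * (2 * nn) := by ring
        _ = Real.exp 1 ^ (N + 1) := by rw [Real.exp_nat_mul]
    calc (2 * nn + NN) ^ (2 * n) = (2 * nn) ^ (2 * n) * (1 + NN / (2 * nn)) ^ (2 * n) := by
          rw [← mul_pow]
          congr 1
          field_simp
      _ ≤ _ := mul_le_mul_of_nonneg_left h9 (by positivity)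
  have h11 : (K : ℝ) * (2 * NN ^ (N + 1)) ≤ ((Q : ℝ)) ^ (N + 1) * Real.exp 1 ^ (N + 1) := by
    have hp : 0 < (2 * nn) ^ (2 * n) := by positivity
    refine le_of_mul_le_mul_right ?_ hp
    calc (K : ℝ) * (2 * NN ^ (N + 1)) * (2 * nn) ^ (2 * n) =
        (K : ℝ) * (2 * (2 * nn) ^ (2 * n) * NN ^ (N + 1)) := by ring
      _ ≤ ((Q : ℝ)) ^ (N + 1) * (2 * nn + NN) ^ (2 * n) := h4
      _ ≤ ((Q : ℝ)) ^ (N + 1) * ((2 * nn) ^ (2 * n) * Real.exp 1 ^ (N + 1)) :=
          mul_le_mul_of_nonneg_left h7 (by positivity)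
      _ = _ := by ring
  have h12 : (Real.exp 1 * (Q : ℝ) / NN) ^ (N + 1) * NN ^ (N + 1) =
      ((Q : ℝ)) ^ (N + 1) * Real.exp 1 ^ (N + 1) := by
    rw [← mul_pow, ← mul_pow]
    congr 1
    field_simp
  have hNp : 0 < NN ^ (N + 1) := by positivity
  refine le_of_mul_le_mul_right ?_ hNp
  rw [h12]
  have hK0 : 0 ≤ (K : ℝ) * NN ^ (N + 1) := by positivity
  linarith


open MvPolynomial

section main

variable {X V W E₁ E₂ E₃ κ : Type*} [Fintype X] [Fintype V] [Fintype W] [Fintype E₁] [Fintype E₂]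
  [Fintype E₃] [Fintype κ]

/-- **Bezout** for nondegenerate zeros, three groups of variables, box form -/
theorem bez_box {d : ℕ} (Ψ : E₁ ⊕ (E₂ ⊕ E₃) → MvPolynomial (X ⊕ (V ⊕ W)) ℂ)
    (p : κ → (X ⊕ (V ⊕ W)) → ℂ) (hp : Function.Injective p)
    (hz : ∀ j i, eval (p j) (Ψ i) = 0)
    (hJ : ∀ j, Function.Surjective (fun v : (X ⊕ (V ⊕ W)) → ℂ => fun i : E₁ ⊕ (E₂ ⊕ E₃) =>
      ∑ l, v l * eval (p j) (pderiv l (Ψ i))))
    (h1 : ∀ e, MD (Ψ (Sum.inl e)) d 1 0) (h2 : ∀ e, MD (Ψ (Sum.inr (Sum.inl e))) d 0 1)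
    (h3 : ∀ e, MD (Ψ (Sum.inr (Sum.inr e))) d 1 1) :
    ∃ d0, ∀ a b c : ℕ, Fintype.card κ * ((Fintype.card E₁ + a).choose (Fintype.card E₁) *
      ((Fintype.card E₂ + b).choose (Fintype.card E₂) *
        (Fintype.card E₃ + c).choose (Fintype.card E₃))) ≤
      (Fintype.card X + (d * (a + b + c) + d0)).choose (Fintype.card X) *
      ((Fintype.card V + (a + c + d0)).choose (Fintype.card V) *
        (Fintype.card W + (b + c + d0)).choose (Fintype.card W)) := by
  classical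
  obtain ⟨h, hh⟩ := bez_lagrange p hp
  choose dd hd using fun j => MD.exists (h j)
  set d0 := Finset.univ.sup dd with hd0
  have hd' : ∀ j, MD (h j) d0 d0 d0 := fun j =>
    (hd j).mono (Finset.le_sup (Finset.mem_univ j)) (Finset.le_sup (Finset.mem_univ j))
      (Finset.le_sup (Finset.mem_univ j))
  refine ⟨d0, fun a b c => ?_⟩
  have key := bez_count Ψ p hz hJ h hh (box3 a b c) (box3 (d * (a + b + c) + d0) (a + c + d0) (b + c + d0))
    (by
      intro j α hα β hβ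
      rw [mem_box3] at hα ⊢
      obtain ⟨k1, k2, k3⟩ := hα
      have hprod : MD (∏ e, Ψ e ^ α e) (d * (a + b + c)) (a + c) (b + c) := by
        rw [Fintype.prod_sum_type, Fintype.prod_sum_type]
        have m1 : MD (∏ e, Ψ (Sum.inl e) ^ α (Sum.inl e)) (a * d) a 0 := by
          refine (MD.prod (A := fun e => α (Sum.inl e) * d) (B := fun e => α (Sum.inl e) * 1)
            (C' := fun e => α (Sum.inl e) * 0) fun e _ => (h1 e).pow _).mono ?_ ?_ ?_
          · rw [← Finset.sum_mul]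
            exact Nat.mul_le_mul_right d k1
          · simp [k1]
          · simp
        have m2 : MD (∏ e, Ψ (Sum.inr (Sum.inl e)) ^ α (Sum.inr (Sum.inl e))) (b * d) 0 b := by
          refine (MD.prod (A := fun e => α (Sum.inr (Sum.inl e)) * d)
            (B := fun e => α (Sum.inr (Sum.inl e)) * 0)
            (C' := fun e => α (Sum.inr (Sum.inl e)) * 1) fun e _ => (h2 e).pow _).mono ?_ ?_ ?_
          · rw [← Finset.sum_mul]
            exact Nat.mul_le_mul_right d k2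
          · simp
          · simp [k2]
        have m3 : MD (∏ e, Ψ (Sum.inr (Sum.inr e)) ^ α (Sum.inr (Sum.inr e))) (c * d) c c := by
          refine (MD.prod (A := fun e => α (Sum.inr (Sum.inr e)) * d)
            (B := fun e => α (Sum.inr (Sum.inr e)) * 1)
            (C' := fun e => α (Sum.inr (Sum.inr e)) * 1) fun e _ => (h3 e).pow _).mono ?_ ?_ ?_
          · rw [← Finset.sum_mul]
            exact Nat.mul_le_mul_right d k3
          · simp [k3]
          · simp [k3]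
        exact (m1.mul (m2.mul m3)).mono (le_of_eq (by ring)) (by omega) (by omega)
      exact (((hd' j).mul hprod).mono (by omega) (by omega) (by omega)) β hβ)
  rw [card_box3, card_box3] at key
  exact key

end main


section final

variable {X V W E₁ E₂ E₃ κ : Type*} [Fintype X] [Fintype V] [Fintype W] [Fintype E₁] [Fintype E₂]
  [Fintype E₃] [Fintype κ]

/-- **Bezout** for nondegenerate zeros of a square system in three groups of variables:
`N` variables in the first group, `n - 1` in the second and third; `n` equations of multidegree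
`(d,1,0)`, `n - 1` of multidegree `(d,0,1)`, `N - 1` of multidegree `(d,1,1)` -/
theorem bez_main {n N d : ℕ} (hn : 1 ≤ n) (hN : 1 ≤ N) (hX : Fintype.card X = N)
    (hV : Fintype.card V = n - 1) (hW : Fintype.card W = n - 1) (hE₁ : Fintype.card E₁ = n)
    (hE₂ : Fintype.card E₂ = n - 1) (hE₃ : Fintype.card E₃ = N - 1)
    (Ψ : E₁ ⊕ (E₂ ⊕ E₃) → MvPolynomial (X ⊕ (V ⊕ W)) ℂ)
    (p : κ → (X ⊕ (V ⊕ W)) → ℂ) (hp : Function.Injective p)
    (hz : ∀ j i, eval (p j) (Ψ i) = 0)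
    (hJ : ∀ j, ∀ v : (X ⊕ (V ⊕ W)) → ℂ,
      (∀ i, ∑ l, v l * eval (p j) (pderiv l (Ψ i)) = 0) → v = 0)
    (h1 : ∀ e, MD (Ψ (Sum.inl e)) d 1 0) (h2 : ∀ e, MD (Ψ (Sum.inr (Sum.inl e))) d 0 1)
    (h3 : ∀ e, MD (Ψ (Sum.inr (Sum.inr e))) d 1 1) :
    (Fintype.card κ : ℝ) ≤ (4 * Real.exp 1 * ((d * (n + N) : ℕ) : ℝ) / N) ^ N := by
  have hc : Fintype.card (X ⊕ (V ⊕ W)) = Fintype.card (E₁ ⊕ (E₂ ⊕ E₃)) := by
    rw [Fintype.card_sum, Fintype.card_sum, Fintype.card_sum, Fintype.card_sum, hX, hV, hW, hE₁,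
      hE₂, hE₃]
    omega
  obtain ⟨d0, hd0⟩ := bez_box Ψ p hp hz (fun j => surj_of_inj hc _ (hJ j)) h1 h2 h3
  have key : (Fintype.card κ : ℝ) ≤ (Real.exp 1 * ((d * (4 * n + N) : ℕ) : ℝ) / N) ^ N := by
    refine bez_limit (Fintype.card κ) n N (d * (4 * n + N)) d0 hn hN fun D => ?_
    have h4 := hd0 (2 * n * D) (2 * n * D) (N * D)
    rw [hX, hV, hW, hE₁, hE₂, hE₃] at h4
    have e1 : d * (2 * n * D + 2 * n * D + N * D) + d0 = d * (4 * n + N) * D + d0 := by ring
    have e2 : 2 * n * D + N * D + d0 = (2 * n + N) * D + d0 := by ring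
    rw [e1, e2] at h4
    exact h4
  have hN0 : (0 : ℝ) < N := by exact_mod_cast hN
  refine key.trans (pow_le_pow_left₀ (by positivity) ?_ N)
  rw [div_le_div_iff_of_pos_right hN0]
  have he : (0 : ℝ) < Real.exp 1 := Real.exp_pos 1
  push_cast
  nlinarith [mul_nonneg he.le (mul_nonneg (Nat.cast_nonneg (α := ℝ) d) (Nat.cast_nonneg (α := ℝ) N))]

end final

end Pool.Agent.Work.MP_35c45d_lc.DG
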