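import Pool.Agent.Work.MP_35c45d_lc.SQDetChart

/-! Common chart for finitely many points, entries of degree at most `d`  (helper18). -/

set_option autoImplicit false
set_option linter.unusedSectionVars false

namespace Pool.Agent.Work.MP_35c45d_lc.DG

open MvPolynomial Matrix Pool.Agent.Work.MP_35c45d_lc.SQ

variable {ι : Type} [Fintype ι]

theorem totalDegree_map_C_mul' {n' d : ℕ} (P : Matrix (Fin (n' + 1)) (Fin (n' + 1)) ℂ)
    (A : Matrix (Fin (n' + 1)) (Fin (n' + 1)) (MvPolynomial ι ℂ))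
    (hA : ∀ a b, (A a b).totalDegree ≤ d) (a b : Fin (n' + 1)) :
    ((P.map (C : ℂ → MvPolynomial ι ℂ) * A) a b).totalDegree ≤ d := by
  rw [Matrix.mul_apply]
  apply MvPolynomial.totalDegree_finsetSum_le
  intro k _
  refine (MvPolynomial.totalDegree_mul _ _).trans ?_
  rw [Matrix.map_apply, MvPolynomial.totalDegree_C, zero_add]
  exact hA k b

theorem totalDegree_mul_map_C' {n' d : ℕ} (P : Matrix (Fin (n' + 1)) (Fin (n' + 1)) ℂ)
    (A : Matrix (Fin (n' + 1)) (Fin (n' + 1)) (MvPolynomial ι ℂ))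
    (hA : ∀ a b, (A a b).totalDegree ≤ d) (a b : Fin (n' + 1)) :
    ((A * P.map (C : ℂ → MvPolynomial ι ℂ)) a b).totalDegree ≤ d := by
  rw [Matrix.mul_apply]
  apply MvPolynomial.totalDegree_finsetSum_le
  intro k _
  refine (MvPolynomial.totalDegree_mul _ _).trans ?_
  rw [Matrix.map_apply, MvPolynomial.totalDegree_C, add_zero]
  exact hA a k

/-- Proof: `A' = P * A * Q` with `P`, `Q` constant, `det P = det Q = 1`, first row of `adj Q` equal to
`(1, t, t^2, ..., t^n')`, first column of `adj P` equal to `(1, s, ..., s^n')`, `s = t^(n'+1)`: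
`adj (P M Q) 0 0 = ∑_{a,b} t^(a + (n'+1) b) (adj M) a b` is a nonzero polynomial in `t`; choose `t`
outside the finitely many roots. -/
theorem exists_chart {n' d : ℕ} {κ : Type} [Fintype κ]
    (A : Matrix (Fin (n' + 1)) (Fin (n' + 1)) (MvPolynomial ι ℂ))
    (hA : ∀ a b, (A a b).totalDegree ≤ d) (x : κ → ι → ℂ)
    (hx : ∀ j, (evMat A (x j)).adjugate ≠ 0) :
    ∃ A' : Matrix (Fin (n' + 1)) (Fin (n' + 1)) (MvPolynomial ι ℂ),
      (∀ a b, (A' a b).totalDegree ≤ d) ∧ A'.det = A.det ∧
      ∀ j, (evMat A' (x j)).adjugate 0 0 ≠ 0 := by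
  classical
  -- choose t
  obtain ⟨t, ht⟩ : ∃ t : ℂ, ∀ j, (sepPoly (evMat A (x j)).adjugate).eval t ≠ 0 := by
    have hne : ∏ j, sepPoly (evMat A (x j)).adjugate ≠ 0 :=
      Finset.prod_ne_zero_iff.mpr (fun j _ => sepPoly_ne_zero (hx j))
    by_contra hcon
    push Not at hcon
    apply hne
    apply Polynomial.funext
    intro r
    obtain ⟨j, hj⟩ := hcon r
    rw [Polynomial.eval_prod, Polynomial.eval_zero]
    exact Finset.prod_eq_zero (Finset.mem_univ j) hj
  -- the vectors
  set e0 : Fin (n' + 1) → ℂ := Pi.single 0 1 with he0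
  set q : Fin (n' + 1) → ℂ := fun a => if a = 0 then 0 else (t ^ (n' + 1)) ^ (a : ℕ) with hq
  set p : Fin (n' + 1) → ℂ := fun a => if a = 0 then 0 else t ^ (a : ℕ) with hp
  have hq0 : q ⬝ᵥ e0 = 0 := by rw [he0, dotProduct_single, hq]; simp
  have hp0 : e0 ⬝ᵥ p = 0 := by rw [he0, single_dotProduct, hp]; simp
  let Q : Matrix (Fin (n' + 1)) (Fin (n' + 1)) ℂ := 1 - vecMulVec e0 q
  let P : Matrix (Fin (n' + 1)) (Fin (n' + 1)) ℂ := 1 - vecMulVec p e0
  refine ⟨P.map (C : ℂ → MvPolynomial ι ℂ) * A * Q.map (C : ℂ → MvPolynomial ι ℂ), ?_, ?_, ?_⟩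
  · exact fun a b => totalDegree_mul_map_C' Q _ (totalDegree_map_C_mul' P A hA) a b
  · rw [Matrix.det_mul, Matrix.det_mul]
    have h1 : (P.map (C : ℂ → MvPolynomial ι ℂ)).det = 1 := by
      have := RingHom.map_det (C : ℂ →+* MvPolynomial ι ℂ) P
      rw [RingHom.mapMatrix_apply] at this
      rw [← this, chart_det' p e0 hp0, C_1]
    have h2 : (Q.map (C : ℂ → MvPolynomial ι ℂ)).det = 1 := by
      have := RingHom.map_det (C : ℂ →+* MvPolynomial ι ℂ) Q
      rw [RingHom.mapMatrix_apply] at this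
      rw [← this, chart_det' e0 q hq0, C_1]
    rw [h1, h2, one_mul, mul_one]
  · intro j
    have hev : evMat (P.map (C : ℂ → MvPolynomial ι ℂ) * A * Q.map (C : ℂ → MvPolynomial ι ℂ)) (x j)
        = P * evMat A (x j) * Q := by
      rw [evMat_eq_map, Matrix.map_mul, Matrix.map_mul, evMat_eq_map]
      congr 1
      · congr 1
        ext a b
        simp
      · ext a b
        simp
    rw [hev, Matrix.adjugate_mul_distrib, Matrix.adjugate_mul_distrib, chart_adj p e0 hp0,
      chart_adj e0 q hq0]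
    have hval : ((1 + vecMulVec e0 q) * ((evMat A (x j)).adjugate * (1 + vecMulVec p e0))) 0 0 =
        (sepPoly (evMat A (x j)).adjugate).eval t := by
      rw [sepPoly_eval, Matrix.mul_apply]
      apply Finset.sum_congr rfl
      intro a _
      rw [Matrix.mul_apply, Finset.mul_sum]
      apply Finset.sum_congr rfl
      intro b _
      have ha : (1 + vecMulVec e0 q : Matrix (Fin (n' + 1)) (Fin (n' + 1)) ℂ) 0 a =
          (t ^ (n' + 1)) ^ (a : ℕ) := by
        rw [Matrix.add_apply, Matrix.vecMulVec_apply, he0, hq, Pi.single_eq_same, one_mul]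
        by_cases h : a = 0
        · subst h; simp
        · simp [h, Matrix.one_apply_ne (Ne.symm h)]
      have hb : (1 + vecMulVec p e0 : Matrix (Fin (n' + 1)) (Fin (n' + 1)) ℂ) b 0 =
          t ^ (b : ℕ) := by
        rw [Matrix.add_apply, Matrix.vecMulVec_apply, he0, hp, Pi.single_eq_same, mul_one]
        by_cases h : b = 0
        · subst h; simp
        · simp [h, Matrix.one_apply_ne h]
      rw [ha, hb]
      ring
    rw [hval]
    exact ht j

end Pool.Agent.Work.MP_35c45d_lc.DG
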