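import Pool.Agent.Work.MP_35c45d_lc.DG.Border
import Pool.Agent.Work.MP_35c45d_lc.MPMain

/-!
# MP_35c45d_lc : multiples of the permanent, entries of degree at most `d`  (helper18)

Everything except Theorem A (the bound for exact determinants), which is a hypothesis here.
-/

set_option autoImplicit false

namespace Pool.Agent.Work.MP_35c45d_lc.DG

open Finset MvPolynomial Filter Topology Pool.Agent.Work.MP_35c45d_lc.SQ

/-- **Theorem A** for matrices with entries of degree at most `d` -/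
def ThmA : Prop := ∀ (n d : ℕ) (ι κ : Type) [Fintype ι] [Fintype κ]
    (A : Matrix (Fin n) (Fin n) (MvPolynomial ι ℂ)), (∀ a b, (A a b).totalDegree ≤ d) →
    ∀ (γ : ℂ) (c : ι → ℂ), c ≠ 0 → ∀ x : κ → ι → ℂ, Function.Injective x →
    (∀ j, IsCrit (C γ * A.det) c (x j)) →
    (Fintype.card κ : ℝ) ≤ (4 * Real.exp 1 * ((d * (n + Fintype.card ι) : ℕ) : ℝ) /
      (Fintype.card ι : ℝ)) ^ Fintype.card ι

theorem theoremA_border (hA : ThmA) {d n : ℕ} {ι κ : Type} [Fintype ι] [Fintype κ]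
    {f : MvPolynomial ι ℂ} (hf : BorderDet d n f) (c : ι → ℂ) (hc : c ≠ 0) (x : κ → ι → ℂ)
    (hinj : Function.Injective x) (hx : ∀ j, IsCrit f c (x j)) :
    (Fintype.card κ : ℝ) ≤ (4 * Real.exp 1 * ((d * (n + Fintype.card ι) : ℕ) : ℝ) /
      (Fintype.card ι : ℝ)) ^ Fintype.card ι := by
  obtain ⟨A, γ, hA', x', hinj', hx'⟩ := exists_det_of_borderDet hf hc hinj hx
  exact hA n d ι κ A hA' γ c hc x' hinj' hx'

/-- **Count** for limits of determinants which are nonzero multiples of the permanent -/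
theorem mult_count (hA : ThmA) {m d n : ℕ} (hm : 1 ≤ m) {F : MvPolynomial (Fin m × Fin m) ℂ}
    (hF : BorderDet d n F) (h0 : F ≠ 0) (hd : permPoly m ∣ F) {ι κ : Type} [Fintype ι]
    [Fintype κ] (φ : Fin m × Fin m → MvPolynomial ι ℂ) (hφ : ∀ q, (φ q).totalDegree ≤ 1)
    (c : ι → ℂ) (hc : c ≠ 0) (x : κ → ι → ℂ) (hinj : Function.Injective x)
    (hx : ∀ k, IsCrit (aeval φ (permPoly m)) c (x k)) :
    (Fintype.card κ : ℝ) ≤ (4 * Real.exp 1 * ((d * (n + Fintype.card ι) : ℕ) : ℝ) /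
      (Fintype.card ι : ℝ)) ^ Fintype.card ι := by
  classical
  have hP := MP.prime_permPoly hm
  obtain ⟨F', h, hF'0, hPF', hPh, hB⟩ := border_reduce hP hF h0 hd
  obtain ⟨g, hg, hPg⟩ :=
    (FiniteMultiplicity.of_prime_left hP hF'0).exists_eq_pow_mul_and_not_dvd
  set a : ℕ := multiplicity (permPoly m) F' with ha
  have ha1 : 1 ≤ a := by
    by_contra hcon
    have h1 : a = 0 := by omega
    rw [h1, pow_zero, one_mul] at hg
    exact hPg (hg ▸ hPF')
  have hW : ¬ permPoly m ∣ g * h := by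
    intro hdv
    rcases hP.dvd_or_dvd hdv with h1 | h1
    · exact hPg h1
    · exact hPh h1
  obtain ⟨φ', c', x', hφ', hc', hinj', hx'⟩ := MP.generic hm φ hφ c hc x hinj hx hW
  obtain ⟨U, hU, hdis⟩ := (Set.finite_range x').t2_separation
  have h1 : ∀ k, ∀ᶠ τ in 𝓝[≠] (0:ℂ), ∃ y ∈ U (x' k),
      IsCrit (aeval φ' (permPoly m) ^ a * aeval φ' g - C (τ ^ a) * aeval φ' h) c' y := by
    intro k
    obtain ⟨hcr, hne⟩ := hx' k
    rw [map_mul, map_mul] at hne
    exact MP.sheet _ _ _ a ha1 c' (x' k) hc' hcr (left_ne_zero_of_mul hne)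
      (right_ne_zero_of_mul hne) (U (x' k)) ((hU (x' k)).2.mem_nhds (hU (x' k)).1)
  obtain ⟨τ, hτ⟩ := (eventually_all.2 h1).exists
  choose y hyU hy using hτ
  have hyinj : Function.Injective y := by
    intro j j' hjj
    by_contra hne
    have h2 := hdis ⟨j, rfl⟩ ⟨j', rfl⟩ (fun h => hne (hinj' h))
    exact Set.disjoint_left.1 h2 (hyU j) (hjj ▸ hyU j')
  have hBτ : BorderDet d n (aeval φ' (permPoly m) ^ a * aeval φ' g -
      C (τ ^ a) * aeval φ' h) := by
    have h2 := (hB (-(τ ^ a))).subst φ' hφ'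
    have h3 : aeval φ' (F' + C (-(τ ^ a)) * h)
        = aeval φ' (permPoly m) ^ a * aeval φ' g - C (τ ^ a) * aeval φ' h := by
      rw [map_add, map_mul, hg, map_mul, map_pow, aeval_C, algebraMap_eq, C_neg]
      ring
    rwa [h3] at h2
  exact theoremA_border hA hBτ c' hc' y hyinj hy

theorem mult_count_finset (hA : ThmA) {m d n : ℕ} (hm : 1 ≤ m)
    {F : MvPolynomial (Fin m × Fin m) ℂ} (hF : BorderDet d n F) (h0 : F ≠ 0)
    (hd : permPoly m ∣ F) {ι : Type} [Fintype ι]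
    (φ : Fin m × Fin m → MvPolynomial ι ℂ) (hφ : ∀ q, (φ q).totalDegree ≤ 1)
    (c : ι → ℂ) (hc : c ≠ 0) (S : Finset (ι → ℂ))
    (hx : ∀ x ∈ S, IsCrit (aeval φ (permPoly m)) c x) :
    (S.card : ℝ) ≤ (4 * Real.exp 1 * ((d * (n + Fintype.card ι) : ℕ) : ℝ) /
      (Fintype.card ι : ℝ)) ^ Fintype.card ι := by
  have h := mult_count hA (κ := Fin S.card) hm hF h0 hd φ hφ c hc
    (fun j => (S.equivFin.symm j : ι → ℂ))
    (fun a b hab => S.equivFin.symm.injective (Subtype.ext hab))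
    (fun j => hx _ (S.equivFin.symm j).2)
  rwa [Fintype.card_fin] at h

/-- a code has at most as many words as coordinates -/
theorem code_le {s0 d0 D0 : ℕ} (hD : 1 ≤ D0) (e : Fin d0 → Fin s0 → ℂ)
    (π : Fin d0 → Fin s0 → Fin D0) (c0 : Fin d0 → Fin s0 → ℂ)
    (hcode : ∀ a a' j, ∑ x ∈ Finset.univ.filter (fun x => π a x = j), c0 a x * e a' x =
      if a = a' then 1 else 0) : d0 ≤ s0 := by
  classical
  have hli : LinearIndependent ℂ e := by
    rw [Fintype.linearIndependent_iff]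
    intro g hg a
    have h1 : ∑ x ∈ Finset.univ.filter (fun x => π a x = ⟨0, hD⟩),
        c0 a x * (∑ a', g a' • e a') x = g a := by
      have h2 : ∀ x, c0 a x * (∑ a', g a' • e a') x = ∑ a', g a' * (c0 a x * e a' x) := by
        intro x
        rw [Finset.sum_apply, Finset.mul_sum]
        refine Finset.sum_congr rfl fun a' _ => ?_
        rw [Pi.smul_apply, smul_eq_mul]
        ring
      simp only [h2]
      rw [Finset.sum_comm]
      simp only [← Finset.mul_sum, hcode]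
      simp
    rw [← h1, hg]
    simp
  have h := hli.fintype_card_le_finrank
  rwa [Fintype.card_fin, Module.finrank_fintype_fun_eq_card, Fintype.card_fin] at h

/-- for all large `m` -/
theorem mult_large (hA : ThmA) (ε : ℝ) (hε : 0 < ε) (hε1 : ε < 1) :
    ∃ c : ℝ, 0 < c ∧ ∃ m₀ : ℕ, ∀ m, m₀ ≤ m → 1 ≤ m → ∀ (d n : ℕ)
      (F : MvPolynomial (Fin m × Fin m) ℂ), BorderDet d n F → F ≠ 0 → permPoly m ∣ F →
      c * (m : ℝ) ^ (3 - ε) ≤ ((d * (n + m ^ 2) : ℕ) : ℝ) := by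
  obtain ⟨s0, d0, D0, e, π, c0, hD, hDs, hd, hcode, hsize⟩ := exists_code3 ε hε
  have hds : d0 ≤ s0 := code_le (by omega) e π c0 hcode
  obtain ⟨c, hc, m₀, h⟩ := numerics ε hε1 hD hDs hd hsize
  refine ⟨c, hc, m₀, fun m hm hm1 d n F hF hF0 hPF => ?_⟩
  obtain ⟨k, n', hk, hn', hdk, hDn, hm', hfin⟩ := h m hm
  have hDk : 2 ≤ D0 ^ k := by
    calc 2 ≤ D0 := hD
      _ = D0 ^ 1 := (pow_one _).symm
      _ ≤ D0 ^ k := Nat.pow_le_pow_right (by omega) hk
  have hsec := MP.section_main_sub (by omega) hd e (fun a x => some (π a x)) c0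
    (fun a b j => by simpa using hcode a b j) k m (J := Fin (n' * (D0 ^ k - 1)))
    (by rw [Fintype.card_fin]; exact hm') (by rw [Fintype.card_fin]; exact hDn)
    (T := Fin (d0 ^ k - 1)) (by rw [Fintype.card_fin]; omega)
  -- the number of variables
  have hDsk : D0 ^ k ≤ s0 ^ k := Nat.pow_le_pow_left hDs.le k
  have hdsk : d0 ^ k ≤ s0 ^ k := Nat.pow_le_pow_left hds k
  have hN1 : n' * (D0 ^ k - 1) ≤ m := by omega
  have hN2 : d0 ^ k - 1 ≤ m - 1 := by omega
  have hN3 : (n' * (d0 ^ k - 1)) * (D0 ^ k - 1) + 1 ≤ m ^ 2 := by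
    obtain ⟨m1, rfl⟩ : ∃ m1, m = m1 + 1 := ⟨m - 1, by omega⟩
    calc (n' * (d0 ^ k - 1)) * (D0 ^ k - 1) + 1
        = (n' * (D0 ^ k - 1)) * (d0 ^ k - 1) + 1 := by ring
      _ ≤ (m1 + 1) * (m1 + 1 - 1) + 1 := Nat.add_le_add_right (Nat.mul_le_mul hN1 hN2) 1
      _ = (m1 + 1) * m1 + 1 := by rw [Nat.add_sub_cancel]
      _ ≤ (m1 + 1) ^ 2 := by nlinarith
  obtain ⟨q, hq⟩ : ∃ q, D0 ^ k = q + 1 := ⟨D0 ^ k - 1, by omega⟩
  have hqq : D0 ^ k - 1 = q := by omega
  set NN : ℕ := (n' * (d0 ^ k - 1)) * (D0 ^ k - 1) + 1 with hNN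
  have hstep : c * (m : ℝ) ^ (3 - ε) ≤ ((d * (n + NN) : ℕ) : ℝ) := by
    apply hfin (d * (n + NN))
    rw [hNN]
    rw [hqq] at hsec ⊢
    rw [hq] at hsec
    obtain ⟨φ, hφ, γ, hγ, h1⟩ := hsec
    obtain ⟨c1, hc1, S, hS, hcrit⟩ := esym_crit (T := Fin (d0 ^ k - 1)) (J := Fin (n' * q))
      (q := q) (n' := n') (by omega) hn' (by rw [Fintype.card_fin])
    have h2 := mult_count_finset hA hm1 hF hF0 hPF φ hφ c1 hc1 S (by
      intro x hx
      rw [h1]
      exact MP.isCrit_smul hγ (hcrit x hx))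
    rw [hS, Fintype.card_option, Fintype.card_prod, Fintype.card_fin, Fintype.card_fin] at h2
    have h3 : (d0 ^ k - 1) * (n' * q) + 1 = n' * (d0 ^ k - 1) * q + 1 := by ring
    rw [h3] at h2
    exact h2
  refine hstep.trans ?_
  have : d * (n + NN) ≤ d * (n + m ^ 2) := Nat.mul_le_mul_left _ (by omega)
  exact_mod_cast this

/-- **Nearly cubic lower bound for multiples**, entries of degree at most `d` -/
theorem mult_main (hA : ThmA) (ε : ℝ) (hε : 0 < ε) : ∃ c : ℝ, 0 < c ∧ ∀ m d n : ℕ, 1 ≤ m →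
    1 ≤ d → ∀ F : MvPolynomial (Fin m × Fin m) ℂ, BorderDet d n F → F ≠ 0 → permPoly m ∣ F →
    c * (m : ℝ) ^ (3 - ε) ≤ d * (n + (m : ℝ) ^ 2) := by
  set ε' : ℝ := min ε (1 / 2) with hε'
  obtain ⟨c, hc, m₀, h⟩ := mult_large hA ε' (lt_min hε (by norm_num))
    (lt_of_le_of_lt (min_le_right _ _) (by norm_num))
  have hle : ε' ≤ ε := min_le_left _ _
  have hle2 : ε' ≤ 1 / 2 := min_le_right _ _
  refine ⟨min c (((m₀ : ℝ) + 1) ^ (-(3 - ε'))), lt_min hc (by positivity), ?_⟩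
  intro m d n hm hd1 F hF hF0 hPF
  have hm1 : (1 : ℝ) ≤ m := by exact_mod_cast hm
  have hd1' : (1 : ℝ) ≤ d := by exact_mod_cast hd1
  have hmono : (m : ℝ) ^ (3 - ε) ≤ (m : ℝ) ^ (3 - ε') :=
    Real.rpow_le_rpow_of_exponent_le hm1 (by linarith)
  rcases le_or_gt m₀ m with hmm | hmm
  · calc min c (((m₀ : ℝ) + 1) ^ (-(3 - ε'))) * (m : ℝ) ^ (3 - ε)
        ≤ c * (m : ℝ) ^ (3 - ε') := by
          apply mul_le_mul (min_le_left _ _) hmono (by positivity) hc.le
      _ ≤ ((d * (n + m ^ 2) : ℕ) : ℝ) := h m hmm hm d n F hF hF0 hPF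
      _ = d * (n + (m : ℝ) ^ 2) := by push_cast; ring
  · have h1 : (1 : ℝ) ≤ d * (n + (m : ℝ) ^ 2) := by
      have h2 : (1 : ℝ) ≤ (n : ℝ) + (m : ℝ) ^ 2 := by nlinarith [Nat.cast_nonneg (α := ℝ) n]
      nlinarith
    refine le_trans ?_ h1
    calc min c (((m₀ : ℝ) + 1) ^ (-(3 - ε'))) * (m : ℝ) ^ (3 - ε)
        ≤ ((m₀ : ℝ) + 1) ^ (-(3 - ε')) * (m : ℝ) ^ (3 - ε') := by
          apply mul_le_mul (min_le_right _ _) hmono (by positivity) (by positivity)
      _ ≤ ((m₀ : ℝ) + 1) ^ (-(3 - ε')) * ((m₀ : ℝ) + 1) ^ (3 - ε') := by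
          apply mul_le_mul_of_nonneg_left _ (by positivity)
          apply Real.rpow_le_rpow (by positivity) _ (by linarith)
          have : (m : ℝ) ≤ m₀ := by exact_mod_cast hmm.le
          linarith
      _ = 1 := by
          rw [← Real.rpow_add (by positivity)]
          simp

/-- a nonzero constant is not a multiple of the permanent -/
theorem not_dvd_const {m : ℕ} (hm : 1 ≤ m) {F : MvPolynomial (Fin m × Fin m) ℂ}
    (h : F = C (coeff 0 F)) (h0 : F ≠ 0) : ¬ permPoly m ∣ F := by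
  intro hd
  have h2 : coeff 0 F ≠ 0 := by
    intro h2
    rw [h2, C_0] at h
    exact h0 h
  apply (MP.prime_permPoly hm).not_isUnit
  apply isUnit_of_dvd_unit hd
  rw [h]
  exact (isUnit_iff_ne_zero.2 h2).map C

/-- **Main theorem**: `A = A₀ + V W` with complex matrices `A₀`, `V`, `V` with `R` columns, and a
matrix `W` of polynomials of total degree at most `d`. -/
theorem main (hA : ThmA) (ε : ℝ) (hε : 0 < ε) : ∃ c : ℝ, 0 < c ∧ ∀ m d R : ℕ, 1 ≤ m → 1 ≤ d →
    ∀ (N : ℕ → ℕ) (A : ∀ s, Matrix (Fin (N s)) (Fin (N s)) (MvPolynomial (Fin m × Fin m) ℂ))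
      (A₀ : ∀ s, Matrix (Fin (N s)) (Fin (N s)) ℂ) (V : ∀ s, Matrix (Fin (N s)) (Fin R) ℂ)
      (W : ∀ s, Matrix (Fin R) (Fin (N s)) (MvPolynomial (Fin m × Fin m) ℂ))
      (F : MvPolynomial (Fin m × Fin m) ℂ),
      (∀ s i j, A s i j = C (A₀ s i j) + ∑ k, C (V s i k) * W s k j) →
      (∀ s i j, (W s i j).totalDegree ≤ d) →
      (∀ e, Tendsto (fun s => coeff e (A s).det) atTop (𝓝 (coeff e F))) →
      F ≠ 0 → permPoly m ∣ F → c * (m : ℝ) ^ (3 - ε) ≤ d * (R + (m : ℝ) ^ 2) := by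
  obtain ⟨c, hc, h⟩ := mult_main hA ε hε
  refine ⟨c, hc, fun m d R hm hd1 N A A₀ V W F hAW hW hlim hF0 hPF => ?_⟩
  rcases Nat.eq_zero_or_pos R with hR | hR
  · -- `R = 0`: `F` is constant
    exfalso
    subst hR
    have hF : F = C (coeff 0 F) := by
      ext e
      rw [coeff_C]
      split_ifs with he0
      · rw [he0]
      · refine tendsto_nhds_unique (hlim e) ?_
        have h1 : ∀ s, coeff e (A s).det = 0 := by
          intro s
          have h2 : A s = (A₀ s).map C := by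
            ext1 i j
            rw [hAW, Matrix.map_apply]
            simp
          have h3 : ((A₀ s).map C : Matrix (Fin (N s)) (Fin (N s))
              (MvPolynomial (Fin m × Fin m) ℂ)).det = C (A₀ s).det :=
            ((C : ℂ →+* MvPolynomial (Fin m × Fin m) ℂ).map_det (A₀ s)).symm
          rw [h2, h3, coeff_C, if_neg he0]
        simp only [h1]
        exact tendsto_const_nhds
    exact not_dvd_const hm hF hF0 hPF
  · have h1 : ∀ s, ∃ B : Matrix (Fin R) (Fin R) (MvPolynomial (Fin m × Fin m) ℂ),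
        (∀ i j, (B i j).totalDegree ≤ d) ∧ B.det = (A s).det := by
      intro s
      obtain ⟨B, hB, hBd⟩ := SD.exists_small_rank hR (A₀ s) (V s) (W s) (hW s)
      refine ⟨B, hB, ?_⟩
      rw [hBd]
      congr 1
      ext1 i j
      rw [hAW, Matrix.add_apply, Matrix.mul_apply]
      rfl
    choose B hB hBdet using h1
    refine h m d R hm hd1 F ⟨B, fun _ => 1, hB, fun e => ?_⟩ hF0 hPF
    simp only [map_one, one_mul, hBdet]
    exact hlim e

end Pool.Agent.Work.MP_35c45d_lc.DG
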