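import Pool.Agent.Work.MP_35c45d_lc.SQDetSupp

/-! Multidegrees, entries of degree at most `d`  (helper18). -/

set_option autoImplicit false
set_option linter.unusedSectionVars false

namespace Pool.Agent.Work.MP_35c45d_lc.DG

open MvPolynomial Pool.Agent.Work.MP_35c45d_lc.SQ Pool.Agent.Work.MP_35c45d_lc.SQ.Supp

variable {ι : Type} [Fintype ι] {n' d : ℕ}

theorem DegLe.neg {d1 d2 d3 : ℕ} {p : MvPolynomial (ι ⊕ (Fin n' ⊕ Fin n')) ℂ}
    (hp : DegLe d1 d2 d3 p) : DegLe d1 d2 d3 (-p) := by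
  intro β hβ
  rw [support_neg] at hβ
  exact hp β hβ

theorem DegLe.sub {d1 d2 d3 : ℕ} {p q : MvPolynomial (ι ⊕ (Fin n' ⊕ Fin n')) ℂ}
    (hp : DegLe d1 d2 d3 p) (hq : DegLe d1 d2 d3 q) : DegLe d1 d2 d3 (p - q) := by
  rw [sub_eq_add_neg]
  exact hp.add (DegLe.neg hq)

theorem degLe_rename' (p : MvPolynomial ι ℂ) (hp : p.totalDegree ≤ d) :
    DegLe (n' := n') d 0 0 (rename Sum.inl p) := by
  classical
  intro β hβ
  rw [support_rename_of_injective Sum.inl_injective, Finset.mem_image] at hβ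
  obtain ⟨m, hm, rfl⟩ := hβ
  refine ⟨?_, ?_, ?_⟩
  · have h1 : ∀ i, Finsupp.mapDomain (Sum.inl : ι → ι ⊕ (Fin n' ⊕ Fin n')) m (Sum.inl i) = m i :=
      fun i => Finsupp.mapDomain_apply Sum.inl_injective m i
    simp only [h1]
    have h2 := (le_totalDegree hm).trans hp
    rwa [Finsupp.sum_fintype _ _ (by simp)] at h2
  · rw [Finset.sum_eq_zero]
    intro k _
    exact Finsupp.mapDomain_of_notMem_range _ _ (by rintro ⟨i, hi⟩; cases hi)
  · rw [Finset.sum_eq_zero]
    intro k _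
    exact Finsupp.mapDomain_of_notMem_range _ _ (by rintro ⟨i, hi⟩; cases hi)

theorem totalDegree_pderiv_le' (i : ι) (p : MvPolynomial ι ℂ) (hp : p.totalDegree ≤ d) :
    (pderiv i p).totalDegree ≤ d := by
  classical
  refine le_trans ?_ hp
  conv_lhs => rw [p.as_sum]
  rw [map_sum]
  refine totalDegree_finsetSum_le fun m hm => ?_
  rw [pderiv_monomial]
  refine (totalDegree_monomial_le _ _).trans ?_
  refine le_trans ?_ (le_totalDegree hm)
  rw [Finsupp.sum_fintype _ _ (fun _ => rfl), Finsupp.sum_fintype _ _ (fun _ => rfl)]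
  refine Finset.sum_le_sum fun j _ => ?_
  rw [Finsupp.tsub_apply]
  exact Nat.sub_le _ _

/-- multidegrees (d,1,0) -/
theorem degLe_first (A : Matrix (Fin (n' + 1)) (Fin (n' + 1)) (MvPolynomial ι ℂ))
    (hA : ∀ a b, (A a b).totalDegree ≤ d) (a : Fin (n' + 1)) :
    DegLe (ι := ι) (n' := n') d 1 0 (∑ b, rename Sum.inl (A a b) * vP ι n' b) :=
  (DegLe.sum _ fun b _ => (degLe_rename' _ (hA a b)).mul (degLe_vP b)).mono
    (by omega) (by omega) (by omega)

/-- multidegrees (d,0,1) -/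
theorem degLe_second (A : Matrix (Fin (n' + 1)) (Fin (n' + 1)) (MvPolynomial ι ℂ))
    (hA : ∀ a b, (A a b).totalDegree ≤ d) (b : Fin n') :
    DegLe (ι := ι) (n' := n') d 0 1 (∑ a, wP ι n' a * rename Sum.inl (A a b.succ)) :=
  (DegLe.sum _ fun a _ => (degLe_wP a).mul (degLe_rename' _ (hA a b.succ))).mono
    (by omega) (by omega) (by omega)

/-- multidegrees (d,1,1) -/
theorem degLe_third (A : Matrix (Fin (n' + 1)) (Fin (n' + 1)) (MvPolynomial ι ℂ))
    (hA : ∀ a b, (A a b).totalDegree ≤ d) (r s : ℂ) (i j : ι) :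
    DegLe (ι := ι) (n' := n') d 1 1 (∑ a, ∑ b,
      (C r * rename Sum.inl (pderiv i (A a b)) - C s * rename Sum.inl (pderiv j (A a b))) *
        (wP ι n' a * vP ι n' b)) :=
  DegLe.sum _ fun a _ => DegLe.sum _ fun b _ =>
    ((DegLe.sub (((DegLe.C r).mul (degLe_rename' _ (totalDegree_pderiv_le' i _ (hA a b)))).mono
        (by omega) (by omega) (by omega))
      (((DegLe.C s).mul (degLe_rename' _ (totalDegree_pderiv_le' j _ (hA a b)))).mono
        (by omega) (by omega) (by omega)) : DegLe (ι := ι) (n' := n') d 0 0 _).mul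
      ((degLe_wP a).mul (degLe_vP b))).mono (by omega) (by omega) (by omega)

end Pool.Agent.Work.MP_35c45d_lc.DG
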